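import Mathlib
import Pool.Agent.R352.CC.Det

set_option autoImplicit false

/-!
# The derangement sum over roots of unity for even `n`

For every even `n > 1` and every primitive `n`-th root of unity `ζ`,
`∑_τ ∏_j 1 / (1 - ζ^(j - τ(j))) = ((n - 1)!!)² / 2^n = n! / 4^n * binom(n, n / 2)`,
the sum over all derangements `τ` of `n` letters.

Proof: with `x_j = ζ^j` the summand is `∏ x_j * ∏ (x_(τ(j)) - x_j)⁻¹`. For arbitrary different
`x_j` the sum over all ways of inserting a letter into the cycles of a derangement vanishes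
(partial fractions), so only the permutations with cycles of length `2` contribute to the permanent and
to the determinant of the matrix `(x_k - x_j)⁻¹` with zero diagonal; so both agree up to the sign
`(-1)^(n/2)`. The determinant of the circulant matrix is the product of its eigenvalues
`(n - 1) / 2 - s`, `0 ≤ s < n`.
-/

namespace Pool.Agent.Results.MP_cc6741_nt.DerangementSum

open Finset Equiv Pool.Agent.R352.CC

/-- the sum over the derangements `τ` of `n` letters of `∏_j 1 / (1 - ζ^(j - τ(j)))`;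
the letters are `0, 1, …, n - 1` (only differences of letters occur) -/
noncomputable def derangementSum (n : ℕ) (ζ : ℂ) : ℂ :=
  ∑ τ ∈ (univ : Finset (Perm (Fin n))).filter (fun τ => ∀ j, τ j ≠ j),
    ∏ j : Fin n, 1 / (1 - ζ ^ (((j : ℕ) : ℤ) - ((τ j : ℕ) : ℤ)))

theorem entry {n : ℕ} [NeZero n] {ζ : ℂ} (h : ζ ^ n = 1) (j k : Fin n) :
    1 / (1 - ζ ^ (((j : ℕ) : ℤ) - ((k : ℕ) : ℤ))) = G ζ k * (G ζ k - G ζ j)⁻¹ := by
  have h0 : ζ ≠ 0 := by
    rintro rfl
    rw [zero_pow (NeZero.ne n)] at h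
    exact zero_ne_one h
  have hk := G_ne h k
  rw [zpow_sub₀ h0, zpow_natCast, zpow_natCast]
  change 1 / (1 - G ζ j / G ζ k) = _
  have h1 : 1 - G ζ j / G ζ k = (G ζ k - G ζ j) / G ζ k := by field_simp
  rw [h1, one_div, inv_div, div_eq_mul_inv]

theorem entry' {n : ℕ} [NeZero n] {ζ : ℂ} (h : ζ ^ n = 1) (j k : Fin n) :
    A n ζ j k = G ζ k * (G ζ k - G ζ j)⁻¹ := by
  have hk := G_ne h k
  rw [A, G_sub h]
  have h1 : 1 - G ζ j * (G ζ k)⁻¹ = (G ζ k - G ζ j) / G ζ k := by field_simp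
  rw [h1, inv_div, div_eq_mul_inv]

theorem prod_perm {n : ℕ} (x : Fin n → ℂ) (τ : Perm (Fin n)) :
    ∏ j, x (τ j) * (x (τ j) - x j)⁻¹ = (∏ j, x j) * wt x τ := by
  rw [prod_mul_distrib, Equiv.prod_comp τ x]
  rfl

theorem sum_eq {n : ℕ} [NeZero n] {ζ : ℂ} (h : ζ ^ n = 1) :
    derangementSum n ζ = (∏ j : Fin n, G ζ j) * PA (G (n := n) ζ) := by
  rw [derangementSum, PA, mul_sum, sum_filter]
  refine sum_congr rfl fun τ _ => ?_
  rw [← prod_perm]
  split_ifs with hτ
  · exact prod_congr rfl fun j _ => entry h j (τ j)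
  · push Not at hτ
    obtain ⟨j, hj⟩ := hτ
    refine (prod_eq_zero (mem_univ j) ?_).symm
    rw [hj, sub_self, inv_zero, mul_zero]

theorem det_eq {n : ℕ} [NeZero n] {ζ : ℂ} (h : ζ ^ n = 1) :
    (A n ζ).det = (∏ j : Fin n, G ζ j) * PD (G (n := n) ζ) := by
  rw [← Matrix.det_transpose, Matrix.det_apply', PD, mul_sum]
  refine sum_congr rfl fun τ _ => ?_
  have h1 : ∏ i, (A n ζ).transpose (τ i) i = (∏ j : Fin n, G ζ j) * wt (G (n := n) ζ) τ := by
    rw [← prod_perm]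
    exact prod_congr rfl fun j _ => entry' h j (τ j)
  rw [h1]
  ring

theorem result : ∀ n : ℕ, 1 < n → Even n → ∀ ζ : ℂ, IsPrimitiveRoot ζ n →
    derangementSum n ζ = ((n - 1).doubleFactorial : ℂ) ^ 2 / 2 ^ n ∧
    derangementSum n ζ = (n.factorial : ℂ) / 4 ^ n * (n.choose (n / 2) : ℂ) := by
  intro n hn hev ζ hz
  obtain ⟨m, rfl⟩ := hev.two_dvd
  have : NeZero (2 * m) := ⟨by omega⟩
  have h := hz.pow_eq_one
  have hinj : Function.Injective (G (n := 2 * m) ζ) := by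
    intro a b hab
    exact Fin.ext (hz.pow_inj a.2 b.2 hab)
  have h1 := PD_eq m (Fin (2 * m)) (G (n := 2 * m) ζ) hinj (by simp)
  have h2 := det_eq (n := 2 * m) h
  rw [det_A hz, prod_half, h1] at h2
  have h3 : derangementSum (2 * m) ζ = ((2 * m - 1).doubleFactorial : ℂ) ^ 2 / 2 ^ (2 * m) := by
    rw [sum_eq h]
    have h4 : ((-1 : ℂ) ^ m) * (-1) ^ m = 1 := by rw [← mul_pow]; simp
    calc (∏ j : Fin (2 * m), G ζ j) * PA (G (n := 2 * m) ζ)
        = ((-1 : ℂ) ^ m * (-1) ^ m) * ((∏ j : Fin (2 * m), G ζ j) * PA (G (n := 2 * m) ζ)) := by rw [h4, one_mul]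
      _ = (-1 : ℂ) ^ m * ((∏ j : Fin (2 * m), G ζ j) * ((-1) ^ m * PA (G (n := 2 * m) ζ))) := by ring
      _ = (-1 : ℂ) ^ m * ((-1) ^ m * ((2 * m - 1).doubleFactorial : ℂ) ^ 2 / 2 ^ (2 * m)) := by rw [h2]
      _ = ((-1 : ℂ) ^ m * (-1) ^ m) * (((2 * m - 1).doubleFactorial : ℂ) ^ 2 / 2 ^ (2 * m)) := by ring
      _ = _ := by rw [h4, one_mul]
  refine ⟨h3, ?_⟩
  rw [h3]
  -- the other form of the value
  have key : ∀ k : ℕ, ((2 * (k + 1) - 1).doubleFactorial : ℂ) ^ 2 / 2 ^ (2 * (k + 1)) =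
      ((2 * (k + 1)).factorial : ℂ) / 4 ^ (2 * (k + 1)) * ((2 * (k + 1)).choose (k + 1) : ℂ) := by
    intro k
    have e1 : 2 * (k + 1) - 1 = 2 * k + 1 := by omega
    have e2 : ((2 * (k + 1)).factorial : ℂ) = ((2 * k + 1).doubleFactorial : ℂ) * (2 ^ (k + 1) * (k + 1).factorial) := by
      have h5 := Nat.factorial_eq_mul_doubleFactorial (2 * k + 1)
      have h6 := Nat.doubleFactorial_two_mul (k + 1)
      have h7 : 2 * (k + 1) = 2 * k + 1 + 1 := by ring
      rw [h7] at h6 ⊢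
      rw [h5, h6]
      push_cast
      ring
    have e3 : ((2 * (k + 1)).choose (k + 1) : ℂ) * ((k + 1).factorial * (k + 1).factorial) = ((2 * (k + 1)).factorial : ℂ) := by
      have h5 := Nat.choose_mul_factorial_mul_factorial (show k + 1 ≤ 2 * (k + 1) by omega)
      have h6 : 2 * (k + 1) - (k + 1) = k + 1 := by omega
      rw [h6] at h5
      exact_mod_cast (by rw [← mul_assoc]; exact h5 :
        (2 * (k + 1)).choose (k + 1) * ((k + 1).factorial * (k + 1).factorial) = (2 * (k + 1)).factorial)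
    have h8 : ((k + 1).factorial : ℂ) ≠ 0 := by exact_mod_cast (k + 1).factorial_ne_zero
    have e4 : ((2 * (k + 1)).choose (k + 1) : ℂ) = ((2 * k + 1).doubleFactorial : ℂ) * 2 ^ (k + 1) / (k + 1).factorial := by
      rw [eq_div_iff h8]
      have : ((2 * (k + 1)).choose (k + 1) : ℂ) * (k + 1).factorial * (k + 1).factorial =
          ((2 * k + 1).doubleFactorial : ℂ) * 2 ^ (k + 1) * (k + 1).factorial := by
        rw [mul_assoc, e3, e2]; ring
      exact mul_right_cancel₀ h8 this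
    rw [e1, e2, e4]
    have h9 : (4 : ℂ) ^ (2 * (k + 1)) = 2 ^ (2 * (k + 1)) * (2 ^ (k + 1) * 2 ^ (k + 1)) := by
      rw [show (4 : ℂ) = 2 * 2 by norm_num, mul_pow, ← pow_add, ← pow_add]
      congr 1
      ring
    rw [h9]
    field_simp
  obtain ⟨k, rfl⟩ : ∃ k, m = k + 1 := ⟨m - 1, by omega⟩
  rw [show 2 * (k + 1) / 2 = k + 1 by omega]
  exact key k

end Pool.Agent.Results.MP_cc6741_nt.DerangementSum
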